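import Pool.Agent.H77.QV3

set_option autoImplicit false

namespace Pool.Agent.Results.MP_7a870e_al.Universal

open Pool.Agent.H77.QV

/-- There is a quasivariety `K`, even of finite signature, whose lattice of subquasivarieties
contains the lattice of subquasivarieties of every quasivariety of finite signature. -/
theorem result :
    ∃ (L₀ : FirstOrder.Language.{0, 0}) (_ : Finite L₀.Symbols) (K : Set (Sys L₀)),
      IsQV K ∧ ∀ L : FirstOrder.Language.{0, 0}, Finite L.Symbols → ∀ M : Set (Sys L), IsQV M →
        ∃ Φ : Lq M → Lq K, IsLatEmb Φ :=
  main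

end Pool.Agent.Results.MP_7a870e_al.Universal
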